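import Pool.Agent.Y645.UP.Stm

/-!
# Project UP, job INC: increments of the isogeny rank under specialization (helper739)
-/

namespace Pool.Agent.Y739.UP

open MvPolynomial Module Pool.Agent.Y645.UL Pool.Agent.Y645.UM Pool.Agent.Y645.UP

/-- the number of classes -/
theorem card_quot {ι Q : Type} (r : ι → ι → Prop) (g : ι → Q) (h : ∀ i j, r i j ↔ g i = g j) :
    Nat.card (Quot r) = (Set.range g).ncard := by
  rw [← Nat.card_coe_set_eq]
  refine Nat.card_congr (Equiv.ofBijective (Quot.lift (fun i => (⟨g i, i, rfl⟩ : Set.range g))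
    (fun a b hab => Subtype.ext ((h a b).1 hab))) ⟨?_, ?_⟩)
  · rintro ⟨a⟩ ⟨b⟩ hab
    exact Quot.sound ((h a b).2 (congrArg Subtype.val hab))
  · rintro ⟨_, i, rfl⟩
    exact ⟨Quot.mk _ i, rfl⟩

/-- the combinatorial statement -/
theorem comb {M J : Type} [Finite M] (s s' : Setoid M) (P P' : M → Prop) (e : J → M)
    (hP : ∀ i, P' i → P i) (hs : ∀ i j, s i j → s' i j) (hP' : ∀ i j, s' i j → P' i → P' j) :
    (Set.range fun i : {i : M // P' i} => (Quotient.mk s' i.1)).ncard +
      (Set.range fun j : {j : J // P (e j)} => (Quotient.mk s (e j.1))).ncard ≤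
    (Set.range fun i : {i : M // P i} => (Quotient.mk s i.1)).ncard +
      (Set.range fun j : {j : J // P' (e j)} => (Quotient.mk s' (e j.1))).ncard := by
  classical
  set A' := Set.range fun i : {i : M // P' i} => (Quotient.mk s' i.1) with hA'
  set B := Set.range fun j : {j : J // P (e j)} => (Quotient.mk s (e j.1)) with hB
  set A := Set.range fun i : {i : M // P i} => (Quotient.mk s i.1) with hA
  set B' := Set.range fun j : {j : J // P' (e j)} => (Quotient.mk s' (e j.1)) with hB'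
  have hBA : B ⊆ A := by
    rintro _ ⟨j, rfl⟩
    exact ⟨⟨e j.1, j.2⟩, rfl⟩
  have hBA' : B' ⊆ A' := by
    rintro _ ⟨j, rfl⟩
    exact ⟨⟨e j.1, j.2⟩, rfl⟩
  have h1 := Set.ncard_sdiff_add_ncard_of_subset hBA (Set.toFinite A)
  have h2 := Set.ncard_sdiff_add_ncard_of_subset hBA' (Set.toFinite A')
  have h3 : (A' \ B').ncard ≤ (A \ B).ncard := by
    refine Set.ncard_le_ncard_of_injOn (fun c => Quotient.mk s c.out) ?_ ?_ (Set.toFinite _)
    · intro c hc
      obtain ⟨⟨i, rfl⟩, hcB⟩ := hc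
      set m : M := (Quotient.mk s' i.1).out with hm
      have hmi : s' m i.1 := Quotient.exact (Quotient.out_eq _)
      have hPm : P' m := hP' _ _ (s'.symm hmi) i.2
      refine ⟨⟨⟨m, hP m hPm⟩, rfl⟩, ?_⟩
      rintro ⟨j, hj⟩
      have h4 : s (e j.1) m := Quotient.exact hj
      have h5 : s' (e j.1) m := hs _ _ h4
      have h6 : P' (e j.1) := hP' _ _ (s'.symm h5) hPm
      exact hcB ⟨⟨j.1, h6⟩, Quotient.sound (s'.trans h5 hmi)⟩
    · intro c _ d _ hcd
      have h4 : s c.out d.out := Quotient.exact hcd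
      have h5 : s' c.out d.out := hs _ _ h4
      rw [← Quotient.out_eq c, ← Quotient.out_eq d]
      exact Quotient.sound h5
  omega

theorem t_INC : S_INC := by
  intro k L L' M J _ _ _ _ _ _ _ D hD y y' e hsp
  obtain ⟨hr, hsy, htr, -, hinv⟩ := hD.1 L
  obtain ⟨hr', hsy', htr', -, hinv'⟩ := hD.1 L'
  let s : Setoid M := ⟨fun i j => Rel D (y i) (y j), fun i => hr _, fun h => hsy _ _ h,
    fun h h' => htr _ _ _ h h'⟩
  let s' : Setoid M := ⟨fun i j => Rel D (y' i) (y' j), fun i => hr' _, fun h => hsy' _ _ h,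
    fun h h' => htr' _ _ _ h h'⟩
  have hspec : ∀ i, SpecAt D (y i) → SpecAt D (y' i) := by
    rintro i ⟨c, hc, hyc⟩
    refine ⟨c, hc, ?_⟩
    have h1 := hsp (X i - C c) (by rw [map_sub, aeval_X, aeval_C, hyc, sub_self])
    rw [map_sub, aeval_X, aeval_C] at h1
    exact sub_eq_zero.1 h1
  have hrel : ∀ i j, Rel D (y i) (y j) → Rel D (y' i) (y' j) := by
    rintro i j ⟨N, hN, h⟩
    refine ⟨N, hN, ?_⟩
    have e1 : ∀ {F : Type} [Field F] [Algebra k F] (z : M → F),
        aeval z (rename ![i, j] (D.Φ N)) = aeval ![z i, z j] (D.Φ N) := by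
      intro F _ _ z
      rw [aeval_rename]
      congr 2
      funext a
      fin_cases a <;> rfl
    have h1 := hsp (rename ![i, j] (D.Φ N)) (by rw [e1]; exact h)
    rwa [e1] at h1
  have c1 : isoRk D y' = (Set.range fun i : {i : M // ¬ SpecAt D (y' i)} =>
      (Quotient.mk s' i.1)).ncard :=
    card_quot _ _ fun i j => ⟨fun h => Quotient.sound h, fun h => Quotient.exact h⟩
  have c2 : isoRk D (y ∘ e) = (Set.range fun j : {j : J // ¬ SpecAt D (y (e j))} =>
      (Quotient.mk s (e j.1))).ncard :=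
    card_quot _ _ fun i j => ⟨fun h => Quotient.sound h, fun h => Quotient.exact h⟩
  have c3 : isoRk D y = (Set.range fun i : {i : M // ¬ SpecAt D (y i)} =>
      (Quotient.mk s i.1)).ncard :=
    card_quot _ _ fun i j => ⟨fun h => Quotient.sound h, fun h => Quotient.exact h⟩
  have c4 : isoRk D (y' ∘ e) = (Set.range fun j : {j : J // ¬ SpecAt D (y' (e j))} =>
      (Quotient.mk s' (e j.1))).ncard :=
    card_quot _ _ fun i j => ⟨fun h => Quotient.sound h, fun h => Quotient.exact h⟩
  rw [c1, c2, c3, c4]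
  exact comb s s' (fun i => ¬ SpecAt D (y i)) (fun i => ¬ SpecAt D (y' i)) e
    (fun i h h' => h (hspec i h')) hrel
    (fun i j h h' h'' => h' (hinv' _ _ h'' (hsy' _ _ h)))

end Pool.Agent.Y739.UP
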